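import Pool.Agent.Helper591.Kneser

/-!
# MP_18fe88_co : the largest 3-cube-free subset of `ℤ/2ⁿ` has exactly `(5/8)·2ⁿ` elements

`CubeFree d A` : for every `d`-tuple `S` of elements of `ℤ/2ⁿ` (repetitions allowed) some
non-empty subset sum of `S` is not in `A`, i.e. `A` contains no projective `d`-cube.
-/

open Finset
open scoped Pointwise

namespace Pool.Agent.Results.MP_18fe88_co.FiveEighths

/-- `A` contains no projective `d`-cube `Σ* S`, `S` a `d`-tuple of elements of `ℤ/2ⁿ`. -/
def CubeFree {n : ℕ} (d : ℕ) (A : Finset (ZMod (2 ^ n))) : Prop :=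
  ∀ S : Fin d → ZMod (2 ^ n), ∃ I : Finset (Fin d), I.Nonempty ∧ ∑ i ∈ I, S i ∉ A

section general

variable {n : ℕ}

theorem cube3 {A : Finset (ZMod (2 ^ n))} (hA : CubeFree 3 A) (a b c : ZMod (2 ^ n))
    (ha : a ∈ A) (hb : b ∈ A) (hc : c ∈ A) (hab : a + b ∈ A) (hac : a + c ∈ A)
    (hbc : b + c ∈ A) (habc : a + b + c ∈ A) : False := by
  obtain ⟨I, hI, hs⟩ := hA ![a, b, c]
  have h1 : ∑ i ∈ I, (![a, b, c] : Fin 3 → ZMod (2 ^ n)) i =
      ∑ i : Fin 3, if i ∈ I then (![a, b, c] : Fin 3 → ZMod (2 ^ n)) i else 0 := by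
    rw [Finset.sum_ite_mem, Finset.univ_inter]
  rw [h1, Fin.sum_univ_three] at hs
  by_cases h0 : (0 : Fin 3) ∈ I <;> by_cases h2 : (1 : Fin 3) ∈ I <;>
    by_cases h3 : (2 : Fin 3) ∈ I
  · simp [h0, h2, h3] at hs; exact hs habc
  · simp [h0, h2, h3] at hs; exact hs hab
  · simp [h0, h2, h3] at hs; exact hs hac
  · simp [h0, h2, h3] at hs; exact hs ha
  · simp [h0, h2, h3] at hs; exact hs hbc
  · simp [h0, h2, h3] at hs; exact hs hb
  · simp [h0, h2, h3] at hs; exact hs hc
  · obtain ⟨i, hi⟩ := hI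
    fin_cases i
    · exact h0 hi
    · exact h2 hi
    · exact h3 hi

end general

/-! ### The sum-free lemma -/

section kn

open Pool.Agent.Helper591.Kneser

variable {n : ℕ}

theorem no_even (S : Finset (ZMod (2 ^ n)))
    (hS : ∀ s ∈ S, ∀ t ∈ S, s + t ∉ S) (hc : 3 * 2 ^ n < 8 * S.card) (y : ZMod (2 ^ n)) :
    y + y ∉ S := by
  intro hy
  have : NeZero (2 ^ n) := ⟨by positivity⟩
  classical
  have hne : S.Nonempty := ⟨_, hy⟩
  set C := S + S with hC
  set H := stab C with hH
  have hSC : ∀ s ∈ S, s ∉ C := by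
    intro s hs hsC
    rw [hC, Finset.mem_add] at hsC
    obtain ⟨a, ha, b, hb, rfl⟩ := hsC
    exact hS a ha b hb hs
  -- index
  have hcardG : Nat.card (ZMod (2 ^ n)) = 2 ^ n := by simp
  have hmul : Nat.card H * H.index = 2 ^ n := H.card_mul_index.trans hcardG
  have hels : (els H).card = Nat.card H := by
    rw [Nat.card_eq_fintype_card, Fintype.card_subtype]
    rfl
  set h := Nat.card H with hh
  set k := H.index with hk
  have hkd : k ∣ 2 ^ n := ⟨h, by rw [← hmul]; ring⟩
  obtain ⟨i, hi, hki⟩ := (Nat.dvd_prime_pow Nat.prime_two).1 hkd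
  have hpos : 0 < h := Nat.pos_of_ne_zero (by
    intro h0; rw [h0] at hmul; simp at hmul; exact absurd hmul.symm (by positivity))
  -- S' = S + H
  set S' := S + els H with hS'
  have hSS' : S ⊆ S' := by
    intro s hs
    rw [hS', Finset.mem_add]
    exact ⟨s, hs, 0, mem_els.2 H.zero_mem, add_zero s⟩
  have hS'C : S' + S' = C := by
    apply Finset.Subset.antisymm
    · intro x hx
      rw [Finset.mem_add] at hx
      obtain ⟨u, hu, v, hv, rfl⟩ := hx
      rw [hS', Finset.mem_add] at hu hv
      obtain ⟨s, hs, g, hg, rfl⟩ := hu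
      obtain ⟨t, ht, g', hg', rfl⟩ := hv
      have e : s + g + (t + g') = (g + g') + (s + t) := by abel
      rw [e]
      have : g + g' ∈ H := H.add_mem (mem_els.1 hg) (mem_els.1 hg')
      exact (mem_stab.1 this (s + t)).2 (Finset.add_mem_add hs ht)
    · exact Finset.add_subset_add hSS' hSS'
  have hdisj : Disjoint S' C := by
    rw [Finset.disjoint_left]
    intro x hx hxC
    rw [hS', Finset.mem_add] at hx
    obtain ⟨s, hs, g, hg, rfl⟩ := hx
    apply hSC s hs
    have := (mem_stab.1 (H.neg_mem (mem_els.1 hg)) (s + g)).2 hxC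
    rwa [show -g + (s + g) = s by abel] at this
  have hkn := kneser (hne.mono hSS') (hne.mono hSS')
  rw [hS'C, ← hH, hels] at hkn
  have htot : S'.card + C.card ≤ 2 ^ n := by
    rw [← Finset.card_union_of_disjoint hdisj]
    calc _ ≤ (Finset.univ : Finset (ZMod (2 ^ n))).card := Finset.card_le_univ _
      _ = 2 ^ n := by simp
  have hSle : S.card ≤ S'.card := Finset.card_le_card hSS'
  have h3 : 3 * S'.card ≤ 2 ^ n + h := by omega
  have h8 : 2 ^ n < 8 * h := by omega
  -- index < 8
  have hk8 : k < 8 := by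
    by_contra hcon
    have : h * 8 ≤ h * k := Nat.mul_le_mul_left h (by omega)
    omega
  -- H contains all doubles
  have hsame : ∀ s ∈ S, ∀ t ∈ S, s - t ∈ H := by
    intro s hs t ht
    by_contra hst
    have hsub : (els H).image (fun g => s + g) ∪ (els H).image (fun g => t + g) ⊆ S' := by
      intro x hx
      rw [Finset.mem_union, Finset.mem_image, Finset.mem_image] at hx
      rcases hx with ⟨g, hg, rfl⟩ | ⟨g, hg, rfl⟩
      · exact Finset.add_mem_add hs hg
      · exact Finset.add_mem_add ht hg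
    have hd : Disjoint ((els H).image (fun g => s + g)) ((els H).image (fun g => t + g)) := by
      rw [Finset.disjoint_left]
      intro x hx hx'
      rw [Finset.mem_image] at hx hx'
      obtain ⟨g, hg, rfl⟩ := hx
      obtain ⟨g', hg', hgg⟩ := hx'
      apply hst
      have : s - t = g' - g := by
        have : t + g' = s + g := hgg
        rw [sub_eq_sub_iff_add_eq_add, ← this, add_comm]
      rw [this]
      exact H.sub_mem (mem_els.1 hg') (mem_els.1 hg)
    have hcd := Finset.card_le_card hsub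
    rw [Finset.card_union_of_disjoint hd, Finset.card_image_of_injective _ (add_right_injective s),
      Finset.card_image_of_injective _ (add_right_injective t), hels] at hcd
    have h5 : 5 * h ≤ 2 ^ n := by omega
    have hk5 : 5 ≤ k := by
      by_contra hcon
      have : h * k ≤ h * 4 := Nat.mul_le_mul_left h (by omega)
      omega
    have : i < 3 := by
      by_contra hcon
      have : 2 ^ 3 ≤ 2 ^ i := Nat.pow_le_pow_right (by norm_num) (by omega)
      omega
    interval_cases i <;> omega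
  have hsc : S.card ≤ h := by
    obtain ⟨t, ht⟩ := hne
    rw [← hels]
    apply Finset.card_le_card_of_injOn (fun s => s - t)
    · intro s hs
      exact mem_els.2 (hsame s hs t ht)
    · intro a _ b _ hab
      exact sub_left_injective hab
  have hk3 : k < 3 := by
    by_contra hcon
    have : h * 3 ≤ h * k := Nat.mul_le_mul_left h (by omega)
    omega
  have hyH : y + y ∈ H := by
    have hk0 : k ≠ 0 := by
      intro h0; rw [h0] at hmul; simp at hmul; exact absurd hmul.symm (by positivity)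
    have : k = 1 ∨ k = 2 := by omega
    rcases this with h1 | h2
    · rw [hk, AddSubgroup.index_eq_one] at h1
      rw [h1]; trivial
    · exact AddSubgroup.add_self_mem_of_index_two (hk ▸ h2) y
  apply hSC _ hy
  have h1 : (y + y) + (y + y) ∈ C := Finset.add_mem_add hy hy
  have := (mem_stab.1 (H.neg_mem hyH) ((y + y) + (y + y))).2 h1
  rwa [show -(y + y) + ((y + y) + (y + y)) = y + y by abel] at this

end kn

/-! ### Counting modulo 4 -/

section cnt

variable {n : ℕ}

/-- reduction modulo 4 -/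
noncomputable def kap (hn : 2 ≤ n) : ZMod (2 ^ n) →+* ZMod 4 :=
  ZMod.castHom (show (4 : ℕ) ∣ 2 ^ n from (by norm_num : (4 : ℕ) = 2 ^ 2) ▸ pow_dvd_pow 2 hn)
    (ZMod 4)

/-- even / odd residues modulo 4 -/
def ev (r : ZMod 4) : Prop := r = 0 ∨ r = 2
def od (r : ZMod 4) : Prop := r = 1 ∨ r = 3

instance : DecidablePred ev := fun r => inferInstanceAs (Decidable (r = 0 ∨ r = 2))
instance : DecidablePred od := fun r => inferInstanceAs (Decidable (r = 1 ∨ r = 3))

theorem ev_or_od (r : ZMod 4) : ev r ∨ od r := by revert r; decide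
theorem not_ev_od {r : ZMod 4} (h : ev r) : ¬ od r := by revert r; decide
theorem ev_iff (r : ZMod 4) : ev r ↔ ¬ od r := by revert r; decide

theorem kap_nat (hn : 2 ≤ n) (m : ℕ) : kap hn (m : ZMod (2 ^ n)) = (m : ZMod 4) := map_natCast _ m

theorem kap_surj (hn : 2 ≤ n) (r : ZMod 4) : r ∈ Set.range (kap hn) :=
  ⟨((r.val : ℕ) : ZMod (2 ^ n)), by rw [kap_nat, ZMod.natCast_zmod_val]⟩

theorem ev_half (hn : 2 ≤ n) {y : ZMod (2 ^ n)} (h : ev (kap hn y)) : ∃ x, 2 * x = y := by
  have : NeZero (2 ^ n) := ⟨by positivity⟩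
  have hy : ((y.val : ℕ) : ZMod (2 ^ n)) = y := ZMod.natCast_zmod_val y
  have hk : kap hn y = ((y.val : ℕ) : ZMod 4) := by conv_lhs => rw [← hy, kap_nat]
  have hdm : y.val = 4 * (y.val / 4) + y.val % 4 := (Nat.div_add_mod _ _).symm
  have hlt : y.val % 4 < 4 := Nat.mod_lt _ (by norm_num)
  set q := y.val / 4
  set r := y.val % 4
  rw [hdm] at hk hy
  push_cast at hk hy
  have h4 : (4 : ZMod 4) = 0 := by decide
  rw [h4, zero_mul, zero_add] at hk
  rw [hk] at h
  interval_cases r
  · exact ⟨2 * (q : ZMod (2 ^ n)), by rw [← hy]; push_cast; ring⟩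
  · exact absurd h (by decide)
  · exact ⟨2 * (q : ZMod (2 ^ n)) + 1, by rw [← hy]; push_cast; ring⟩
  · exact absurd h (by decide)

theorem ev_two (hn : 2 ≤ n) (x : ZMod (2 ^ n)) : ev (kap hn (2 * x)) := by
  rw [map_mul]
  have : kap hn (2 : ZMod (2 ^ n)) = 2 := by
    have := kap_nat hn 2
    exact_mod_cast this
  rw [this]
  generalize kap hn x = r
  revert r; decide

variable [NeZero (2 ^ n)]

theorem fiber4 (hn : 2 ≤ n) (r : ZMod 4) : 4 * #{x : ZMod (2 ^ n) | kap hn x = r} = 2 ^ n := by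
  have h0 : ∀ s : ZMod 4, #{x : ZMod (2 ^ n) | kap hn x = s} = #{x : ZMod (2 ^ n) | kap hn x = r} :=
    fun s => AddMonoidHom.card_fiber_eq_of_mem_range (kap hn) (kap_surj hn s) (kap_surj hn r)
  have h1 := Finset.card_eq_sum_card_fiberwise (s := (Finset.univ : Finset (ZMod (2 ^ n))))
    (t := (Finset.univ : Finset (ZMod 4))) (f := kap hn) (fun _ _ => by simp)
  rw [Finset.sum_congr rfl (fun s _ => h0 s), Finset.sum_const, Finset.card_univ, Finset.card_univ,
    ZMod.card, ZMod.card, smul_eq_mul] at h1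
  exact h1.symm

theorem card_ev (hn : 2 ≤ n) : 2 * #{x : ZMod (2 ^ n) | ev (kap hn x)} = 2 ^ n := by
  have h : #{x : ZMod (2 ^ n) | ev (kap hn x)} =
      #{x : ZMod (2 ^ n) | kap hn x = 0} + #{x : ZMod (2 ^ n) | kap hn x = 2} := by
    rw [← Finset.card_union_of_disjoint]
    · congr 1; ext x; simp only [Finset.mem_union, Finset.mem_filter, Finset.mem_univ, true_and]
      exact Iff.rfl
    · rw [Finset.disjoint_filter]; intro x _ h1 h2; rw [h1] at h2; exact absurd h2 (by decide)
  have := fiber4 hn (0 : ZMod 4)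
  have := fiber4 hn (2 : ZMod 4)
  omega

theorem card_od (hn : 2 ≤ n) : 2 * #{x : ZMod (2 ^ n) | od (kap hn x)} = 2 ^ n := by
  have h : #{x : ZMod (2 ^ n) | od (kap hn x)} =
      #{x : ZMod (2 ^ n) | kap hn x = 1} + #{x : ZMod (2 ^ n) | kap hn x = 3} := by
    rw [← Finset.card_union_of_disjoint]
    · congr 1; ext x; simp only [Finset.mem_union, Finset.mem_filter, Finset.mem_univ, true_and]
      exact Iff.rfl
    · rw [Finset.disjoint_filter]; intro x _ h1 h2; rw [h1] at h2; exact absurd h2 (by decide)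
  have := fiber4 hn (1 : ZMod 4)
  have := fiber4 hn (3 : ZMod 4)
  omega

theorem fib2 (hn : 2 ≤ n) {y : ZMod (2 ^ n)} (hy : ev (kap hn y)) :
    #{x : ZMod (2 ^ n) | 2 * x = y} = 2 := by
  classical
  let f : ZMod (2 ^ n) →+ ZMod (2 ^ n) := AddMonoidHom.mulLeft 2
  have hf : ∀ x, f x = 2 * x := fun x => rfl
  have h0 : ∀ z : ZMod (2 ^ n), ev (kap hn z) →
      #{x : ZMod (2 ^ n) | 2 * x = z} = #{x : ZMod (2 ^ n) | 2 * x = y} := by
    intro z hz
    exact AddMonoidHom.card_fiber_eq_of_mem_range f (ev_half hn hz) (ev_half hn hy)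
  have h1 := Finset.card_eq_sum_card_fiberwise (s := (Finset.univ : Finset (ZMod (2 ^ n))))
    (t := ({z : ZMod (2 ^ n) | ev (kap hn z)} : Finset (ZMod (2 ^ n)))) (f := fun x => 2 * x)
    (fun x _ => by simpa using ev_two hn x)
  rw [Finset.sum_congr rfl (fun s hs => h0 s (by simpa using hs)), Finset.sum_const,
    Finset.card_univ, ZMod.card, smul_eq_mul] at h1
  have h2 := card_ev hn
  set E := #{z : ZMod (2 ^ n) | ev (kap hn z)} with hE
  have hpos : 0 < E := by
    have : 0 < 2 ^ n := by positivity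
    omega
  have h3 : E * #{x : ZMod (2 ^ n) | 2 * x = y} = E * 2 := by rw [← h1, ← h2]; ring
  exact Nat.eq_of_mul_eq_mul_left hpos h3

theorem half (hn : 2 ≤ n) (P : ZMod (2 ^ n) → Prop) [DecidablePred P] :
    #{x : ZMod (2 ^ n) | P (2 * x)} = 2 * #{y : ZMod (2 ^ n) | ev (kap hn y) ∧ P y} := by
  classical
  have h1 := Finset.card_eq_sum_card_fiberwise (s := ({x : ZMod (2 ^ n) | P (2 * x)} : Finset _))
    (t := ({y : ZMod (2 ^ n) | ev (kap hn y) ∧ P y} : Finset (ZMod (2 ^ n))))
    (f := fun x => 2 * x) (fun x hx => by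
      simp only [Finset.coe_filter, Finset.mem_univ, true_and, Set.mem_ofPred_eq] at hx ⊢
      exact ⟨ev_two hn x, hx⟩)
  rw [h1, Finset.sum_congr rfl (g := fun _ => 2), Finset.sum_const, smul_eq_mul, mul_comm]
  intro y hy
  simp only [Finset.mem_filter, Finset.mem_univ, true_and] at hy
  refine Eq.trans ?_ (fib2 hn hy.1)
  congr 1
  ext x
  simp only [Finset.mem_filter, Finset.mem_univ, true_and]
  constructor
  · exact fun h => h.2
  · intro h; exact ⟨by rw [h]; exact hy.2, h⟩

theorem shift (a : ZMod (2 ^ n)) (Q : ZMod (2 ^ n) → Prop) [DecidablePred Q] :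
    #{x : ZMod (2 ^ n) | Q (x + a)} = #{x : ZMod (2 ^ n) | Q x} :=
  Finset.card_bijective (fun x => x + a) (AddGroup.addRight_bijective a) (by simp)

omit [NeZero (2 ^ n)] in
theorem three_inj : Function.Injective (fun x : ZMod (2 ^ n) => 3 * x) := by
  have h3 : IsUnit (3 : ZMod (2 ^ n)) := by
    have := (ZMod.isUnit_iff_coprime 3 (2 ^ n)).2 (Nat.Coprime.pow_right n (by norm_num))
    exact_mod_cast this
  exact h3.mul_right_injective

/-! ### The upper bound -/

/-- the key step: if `u, 2u ∈ A`, `A` is large and more than half of the even residues are in `A`,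
then `6u ∉ A`. -/
theorem six (hn : 2 ≤ n) {A : Finset (ZMod (2 ^ n))} (hA : CubeFree 3 A)
    (hbig : 5 * 2 ^ n < 8 * A.card) (he : 2 ^ n < 4 * #{x : ZMod (2 ^ n) | ev (kap hn x) ∧ x ∈ A})
    (u : ZMod (2 ^ n)) (hu : u ∈ A) (h2u : 2 * u ∈ A) : 6 * u ∉ A := by
  classical
  intro h6
  -- no three consecutive
  have h3 : ∀ c, c ∈ A → c + u ∈ A → c + 2 * u ∈ A → False := by
    intro c h0 h1 h2
    refine cube3 hA u u c hu hu h0 (by rwa [← two_mul]) (by rwa [add_comm]) (by rwa [add_comm]) ?_
    rwa [← two_mul, add_comm]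
  set W : Finset (ZMod (2 ^ n)) :=
    {c | (c ∉ A ∧ c + u ∉ A) ∨ (c ∉ A ∧ c + 2 * u ∉ A) ∨ (c + u ∉ A ∧ c + 2 * u ∉ A)} with hW
  have hAc : #{x : ZMod (2 ^ n) | x ∈ A} = A.card := by congr 1; ext x; simp
  have s1 : #{x : ZMod (2 ^ n) | x + u ∈ A} = A.card := (shift u (fun x => x ∈ A)).trans hAc
  have s2 : #{x : ZMod (2 ^ n) | x + 2 * u ∈ A} = A.card :=
    (shift (2 * u) (fun x => x ∈ A)).trans hAc
  have hWc : 3 * A.card + W.card ≤ 2 * 2 ^ n := by
    have hsum : ∑ c : ZMod (2 ^ n), ((if c ∈ A then 1 else 0) + (if c + u ∈ A then 1 else 0)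
        + (if c + 2 * u ∈ A then 1 else 0) + (if c ∈ W then 1 else 0)) ≤
        ∑ c : ZMod (2 ^ n), 2 := by
      apply Finset.sum_le_sum
      intro c _
      have := h3 c
      simp only [hW, Finset.mem_filter, Finset.mem_univ, true_and]
      by_cases h0 : c ∈ A <;> by_cases h1 : c + u ∈ A <;> by_cases h2 : c + 2 * u ∈ A <;>
        simp [h0, h1, h2] at this ⊢
    rw [Finset.sum_add_distrib, Finset.sum_add_distrib, Finset.sum_add_distrib] at hsum
    simp only [Finset.sum_boole, Finset.sum_const, Finset.card_univ, ZMod.card, smul_eq_mul,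
      Nat.cast_id] at hsum
    rw [hAc, s1, s2] at hsum
    have hWW : #{x : ZMod (2 ^ n) | x ∈ W} = W.card := by congr 1; ext x; simp
    rw [hWW] at hsum
    omega
  set T : Finset (ZMod (2 ^ n)) := {c | c ∈ A ∧ c + 3 * u ∉ A} with hT
  have hTW : T.card ≤ W.card := by
    apply Finset.card_le_card_of_injOn (fun c => c + u)
    · intro c hc
      simp only [hT, Finset.coe_filter, Finset.mem_univ, true_and, Set.mem_ofPred_eq] at hc
      simp only [hW, Finset.coe_filter, Finset.mem_univ, true_and, Set.mem_ofPred_eq]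
      have e1 : c + u + u = c + 2 * u := by ring
      have e2 : c + u + 2 * u = c + 3 * u := by ring
      rw [e1, e2]
      by_cases h1 : c + u ∈ A
      · by_cases h2 : c + 2 * u ∈ A
        · exact absurd (h3 c hc.1 h1 h2) id
        · exact Or.inr (Or.inr ⟨h2, hc.2⟩)
      · exact Or.inr (Or.inl ⟨h1, hc.2⟩)
    · intro a _ b _ hab
      exact add_right_cancel hab
  set S : Finset (ZMod (2 ^ n)) := {c | c ∈ A ∧ c + 6 * u ∈ A} with hS
  have hST : A.card ≤ S.card + 2 * T.card := by
    have hsub : A ⊆ S ∪ T ∪ ({c | c + 3 * u ∈ T} : Finset (ZMod (2 ^ n))) := by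
      intro c hc
      simp only [hS, hT, Finset.mem_union, Finset.mem_filter, Finset.mem_univ, true_and]
      have e : c + 3 * u + 3 * u = c + 6 * u := by ring
      rw [e]
      by_cases h1 : c + 3 * u ∈ A
      · by_cases h2 : c + 6 * u ∈ A
        · exact Or.inl (Or.inl ⟨hc, h2⟩)
        · exact Or.inr ⟨h1, h2⟩
      · exact Or.inl (Or.inr ⟨hc, h1⟩)
    have h4 := Finset.card_le_card hsub
    have h5 := Finset.card_union_le (S ∪ T) ({c | c + 3 * u ∈ T} : Finset (ZMod (2 ^ n)))
    have h6 := Finset.card_union_le S T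
    have h7 : #({c | c + 3 * u ∈ T} : Finset (ZMod (2 ^ n))) = T.card := by
      rw [shift (3 * u) (fun x => x ∈ T)]
      congr 1; ext x; simp
    omega
  have hSbig : 3 * 2 ^ n < 8 * S.card := by omega
  have hSsf : ∀ s ∈ S, ∀ t ∈ S, s + t ∉ S := by
    intro s hs t ht hst
    simp only [hS, Finset.mem_filter, Finset.mem_univ, true_and] at hs ht hst
    refine cube3 hA s t (6 * u) hs.1 ht.1 h6 hst.1 hs.2 ht.2 hst.2
  have hno := no_even S hSsf hSbig
  -- even part
  have hdis : Disjoint ({x : ZMod (2 ^ n) | ev (kap hn x) ∧ x ∈ A} : Finset _)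
      ({x : ZMod (2 ^ n) | ev (kap hn x) ∧ x + 6 * u ∈ A} : Finset _) := by
    rw [Finset.disjoint_filter]
    rintro x _ ⟨h1, h2⟩ ⟨_, h4⟩
    obtain ⟨y, hy⟩ := ev_half hn h1
    apply hno y
    rw [← two_mul, hy, hS]
    simp only [Finset.mem_filter, Finset.mem_univ, true_and]
    exact ⟨h2, h4⟩
  have hsh : #{x : ZMod (2 ^ n) | ev (kap hn x) ∧ x + 6 * u ∈ A} =
      #{x : ZMod (2 ^ n) | ev (kap hn x) ∧ x ∈ A} := by
    rw [← shift (6 * u) (fun x => ev (kap hn x) ∧ x ∈ A)]
    congr 1
    ext x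
    simp only [Finset.mem_filter, Finset.mem_univ, true_and]
    have h6e : ev (kap hn (6 * u)) := by
      have : (6 : ZMod (2 ^ n)) * u = 2 * (3 * u) := by ring
      rw [this]; exact ev_two hn _
    have : ev (kap hn (x + 6 * u)) ↔ ev (kap hn x) := by
      rw [map_add]
      generalize kap hn (6 * u) = r at h6e
      generalize kap hn x = s
      revert r s; decide
    rw [this]
  have hle : ({x : ZMod (2 ^ n) | ev (kap hn x) ∧ x ∈ A} : Finset _) ∪
      ({x : ZMod (2 ^ n) | ev (kap hn x) ∧ x + 6 * u ∈ A} : Finset _) ⊆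
      ({x : ZMod (2 ^ n) | ev (kap hn x)} : Finset _) := by
    intro x hx
    simp only [Finset.mem_union, Finset.mem_filter, Finset.mem_univ, true_and] at hx ⊢
    rcases hx with h | h <;> exact h.1
  have hcl := Finset.card_le_card hle
  rw [Finset.card_union_of_disjoint hdis, hsh] at hcl
  have := card_ev hn
  omega

/-- elementary: an injection from an even-type set into the odd non-elements -/
theorem upper (hn : 3 ≤ n) {A : Finset (ZMod (2 ^ n))} (hA : CubeFree 3 A) :
    8 * A.card ≤ 5 * 2 ^ n := by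
  classical
  have hn2 : 2 ≤ n := by omega
  by_contra hcon
  push Not at hcon
  have kk := kap hn2
  -- counts
  have hev := card_ev hn2
  have hod := card_od hn2
  have hf0 := fiber4 hn2 (0 : ZMod 4)
  set o := #{x : ZMod (2 ^ n) | od (kap hn2 x) ∧ x ∈ A} with ho
  set b := #{x : ZMod (2 ^ n) | od (kap hn2 x) ∧ x ∉ A} with hb
  set e := #{x : ZMod (2 ^ n) | ev (kap hn2 x) ∧ x ∈ A} with he
  set q := #{x : ZMod (2 ^ n) | kap hn2 x = 0 ∧ x ∈ A} with hq
  set d1 := #{x : ZMod (2 ^ n) | od (kap hn2 x) ∧ 2 * x ∈ A} with hd1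
  have hob : o + b = #{x : ZMod (2 ^ n) | od (kap hn2 x)} := by
    rw [ho, hb, ← Finset.card_union_of_disjoint]
    · congr 1; ext x; simp only [Finset.mem_union, Finset.mem_filter, Finset.mem_univ, true_and]
      by_cases hx : x ∈ A <;> simp [hx]
    · rw [Finset.disjoint_filter]; rintro x _ ⟨_, h1⟩ ⟨_, h2⟩; exact h2 h1
  have hoe : o + e = A.card := by
    rw [ho, he, ← Finset.card_union_of_disjoint]
    · congr 1; ext x; simp only [Finset.mem_union, Finset.mem_filter, Finset.mem_univ, true_and]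
      have := ev_or_od (kap hn2 x)
      tauto
    · rw [Finset.disjoint_filter]; rintro x _ ⟨h1, _⟩ ⟨h2, _⟩; exact not_ev_od h2 h1
  have k2 : kap hn2 (2 : ZMod (2 ^ n)) = 2 := by
    have := kap_nat hn2 2
    exact_mod_cast this
  have k3 : kap hn2 (3 : ZMod (2 ^ n)) = 3 := by
    have := kap_nat hn2 3
    exact_mod_cast this
  have k4 : kap hn2 (4 : ZMod (2 ^ n)) = 0 := by
    have := kap_nat hn2 4
    have h4 : ((4 : ℕ) : ZMod 4) = 0 := by decide
    rw [h4] at this
    exact_mod_cast this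
  -- 2 e = d1 + 2 q
  have hq2 : #{x : ZMod (2 ^ n) | ev (kap hn2 x) ∧ 2 * x ∈ A} = 2 * q := by
    have h := half hn2 (fun y => kap hn2 y = 0 ∧ y ∈ A)
    have h1 : #{x : ZMod (2 ^ n) | kap hn2 (2 * x) = 0 ∧ 2 * x ∈ A} =
        #{x : ZMod (2 ^ n) | ev (kap hn2 x) ∧ 2 * x ∈ A} := by
      congr 1; ext x; simp only [Finset.mem_filter, Finset.mem_univ, true_and]
      rw [map_mul, k2]
      have : 2 * kap hn2 x = 0 ↔ ev (kap hn2 x) := by
        generalize kap hn2 x = r; revert r; decide
      rw [this]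
    have h2 : #{y : ZMod (2 ^ n) | ev (kap hn2 y) ∧ kap hn2 y = 0 ∧ y ∈ A} = q := by
      rw [hq]; congr 1; ext x; simp only [Finset.mem_filter, Finset.mem_univ, true_and]
      constructor
      · exact fun h => h.2
      · intro h; exact ⟨by rw [h.1]; decide, h⟩
    rw [← h1, h, h2]
  have h2e : 2 * e = d1 + 2 * q := by
    have h := half hn2 (fun y => y ∈ A)
    rw [← he] at h
    rw [← h, ← hq2, hd1, ← Finset.card_union_of_disjoint]
    · congr 1; ext x; simp only [Finset.mem_union, Finset.mem_filter, Finset.mem_univ, true_and]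
      have := ev_or_od (kap hn2 x)
      tauto
    · rw [Finset.disjoint_filter]; rintro x _ ⟨h1, _⟩ ⟨h2, _⟩; exact not_ev_od h2 h1
  by_cases hII : ∃ x, od (kap hn2 x) ∧ x ∈ A ∧ 2 * x ∈ A
  · -- case II
    obtain ⟨x0, hx0, hx0A, hx02⟩ := hII
    have hc0 : ∀ y, y ∈ A → y - x0 ∈ A → y + x0 ∈ A → False := by
      intro y hy h1 h2
      refine cube3 hA x0 x0 (y - x0) hx0A hx0A h1 (by rwa [← two_mul]) ?_ ?_ ?_
      · rwa [show x0 + (y - x0) = y by ring]
      · rwa [show x0 + (y - x0) = y by ring]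
      · rwa [show x0 + x0 + (y - x0) = y + x0 by ring]
    have hsubs : ∀ Q : ZMod (2 ^ n) → Prop, ∀ [DecidablePred Q], (∀ y, Q y → ev (kap hn2 y)) →
        (∀ y, Q y → y ∈ A) → #{y : ZMod (2 ^ n) | Q y} ≤ 2 * b := by
      intro Q _ h1 h2
      have hsub : ({y : ZMod (2 ^ n) | Q y} : Finset _) ⊆
          ({y : ZMod (2 ^ n) | od (kap hn2 (y + -x0)) ∧ y + -x0 ∉ A} : Finset _) ∪
          ({y : ZMod (2 ^ n) | od (kap hn2 (y + x0)) ∧ y + x0 ∉ A} : Finset _) := by
        intro y hy
        simp only [Finset.mem_union, Finset.mem_filter, Finset.mem_univ, true_and] at hy ⊢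
        have hy1 := h1 y hy
        have p1 : od (kap hn2 (y + -x0)) := by
          rw [map_add, map_neg]
          generalize kap hn2 y = r at hy1
          generalize kap hn2 x0 = s at hx0
          revert r s; decide
        have p2 : od (kap hn2 (y + x0)) := by
          rw [map_add]
          generalize kap hn2 y = r at hy1
          generalize kap hn2 x0 = s at hx0
          revert r s; decide
        by_cases h3 : y + -x0 ∈ A
        · by_cases h4 : y + x0 ∈ A
          · exact absurd (hc0 y (h2 y hy) (by rwa [sub_eq_add_neg]) h4) id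
          · exact Or.inr ⟨p2, h4⟩
        · exact Or.inl ⟨p1, h3⟩
      have h3 := Finset.card_le_card hsub
      have h4 := Finset.card_union_le
        ({y : ZMod (2 ^ n) | od (kap hn2 (y + -x0)) ∧ y + -x0 ∉ A} : Finset _)
        ({y : ZMod (2 ^ n) | od (kap hn2 (y + x0)) ∧ y + x0 ∉ A} : Finset _)
      have h5 : #({y : ZMod (2 ^ n) | od (kap hn2 (y + -x0)) ∧ y + -x0 ∉ A} : Finset _) = b :=
        shift (-x0) (fun y => od (kap hn2 y) ∧ y ∉ A)
      have h6 : #({y : ZMod (2 ^ n) | od (kap hn2 (y + x0)) ∧ y + x0 ∉ A} : Finset _) = b :=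
        shift x0 (fun y => od (kap hn2 y) ∧ y ∉ A)
      omega
    have he2b : e ≤ 2 * b := hsubs (fun y => ev (kap hn2 y) ∧ y ∈ A) (fun _ h => h.1)
      (fun _ h => h.2)
    have he4 : 2 ^ n < 4 * e := by omega
    -- q ≤ b
    have hqb : q ≤ b := by
      rw [hq, hb]
      apply Finset.card_le_card_of_injOn (fun y => if y - x0 ∈ A then y + x0 else y - x0)
      · intro y hy
        simp only [Finset.coe_filter, Finset.mem_univ, true_and, Set.mem_ofPred_eq] at hy ⊢
        by_cases h1 : y - x0 ∈ A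
        · rw [if_pos h1]
          refine ⟨?_, fun h => hc0 y hy.2 h1 h⟩
          rw [map_add, hy.1, zero_add]; exact hx0
        · rw [if_neg h1]
          refine ⟨?_, h1⟩
          rw [map_sub, hy.1, zero_sub]
          generalize kap hn2 x0 = s at hx0
          revert s; decide
      · intro y hy z hz hyz
        simp only [Finset.coe_filter, Finset.mem_univ, true_and, Set.mem_ofPred_eq] at hy hz hyz
        have hcl : ∀ y z : ZMod (2 ^ n), kap hn2 y = 0 → kap hn2 z = 0 → y + x0 = z - x0 →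
            False := by
          intro y z hy hz h
          have := congrArg (kap hn2) h
          rw [map_add, map_sub, hy, hz] at this
          generalize kap hn2 x0 = s at hx0 this
          revert s; decide
        by_cases h1 : y - x0 ∈ A <;> by_cases h2 : z - x0 ∈ A
        · rw [if_pos h1, if_pos h2] at hyz; exact add_right_cancel hyz
        · rw [if_pos h1, if_neg h2] at hyz; exact absurd (hcl y z hy.1 hz.1 hyz) id
        · rw [if_neg h1, if_pos h2] at hyz; exact absurd (hcl z y hz.1 hy.1 hyz.symm) id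
        · rw [if_neg h1, if_neg h2] at hyz; exact sub_left_injective hyz
    -- 4 e ≤ 2^n + 2 b
    have he5 : 4 * e ≤ 2 ^ n + 2 * b := by
      have hk : #{y : ZMod (2 ^ n) | (ev (kap hn2 y) ∧ y ∈ A) ∧ y + 2 * x0 ∈ A} ≤ b := by
        rw [hb]
        apply Finset.card_le_card_of_injOn (fun y => y + x0)
        · intro y hy
          simp only [Finset.coe_filter, Finset.mem_univ, true_and, Set.mem_ofPred_eq] at hy ⊢
          obtain ⟨⟨h1, h2⟩, h3⟩ := hy
          refine ⟨?_, fun h => ?_⟩
          · rw [map_add]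
            generalize kap hn2 y = r at h1
            generalize kap hn2 x0 = s at hx0
            revert r s; decide
          · refine hc0 (y + x0) h (by rwa [add_sub_cancel_right]) ?_
            rwa [add_assoc, ← two_mul]
        · intro a _ c _ hac
          exact add_right_cancel hac
      have hsh : #{y : ZMod (2 ^ n) | ev (kap hn2 y) ∧ y + 2 * x0 ∈ A} = e := by
        rw [he, ← shift (2 * x0) (fun x => ev (kap hn2 x) ∧ x ∈ A)]
        congr 1
        ext x
        simp only [Finset.mem_filter, Finset.mem_univ, true_and]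
        have h6e : ev (kap hn2 (2 * x0)) := ev_two hn2 _
        have : ev (kap hn2 (x + 2 * x0)) ↔ ev (kap hn2 x) := by
          rw [map_add]
          generalize kap hn2 (2 * x0) = r at h6e
          generalize kap hn2 x = s
          revert r s; decide
        rw [this]
      have hui := Finset.card_union_add_card_inter
        ({y : ZMod (2 ^ n) | ev (kap hn2 y) ∧ y ∈ A} : Finset _)
        ({y : ZMod (2 ^ n) | ev (kap hn2 y) ∧ y + 2 * x0 ∈ A} : Finset _)
      rw [hsh, ← he] at hui
      have hu1 : #(({y : ZMod (2 ^ n) | ev (kap hn2 y) ∧ y ∈ A} : Finset _) ∪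
          ({y : ZMod (2 ^ n) | ev (kap hn2 y) ∧ y + 2 * x0 ∈ A} : Finset _)) ≤
          #{y : ZMod (2 ^ n) | ev (kap hn2 y)} := by
        apply Finset.card_le_card
        intro x hx
        simp only [Finset.mem_union, Finset.mem_filter, Finset.mem_univ, true_and] at hx ⊢
        rcases hx with h | h <;> exact h.1
      have hi1 : #(({y : ZMod (2 ^ n) | ev (kap hn2 y) ∧ y ∈ A} : Finset _) ∩
          ({y : ZMod (2 ^ n) | ev (kap hn2 y) ∧ y + 2 * x0 ∈ A} : Finset _)) ≤
          #{y : ZMod (2 ^ n) | (ev (kap hn2 y) ∧ y ∈ A) ∧ y + 2 * x0 ∈ A} := by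
        apply Finset.card_le_card
        intro x hx
        simp only [Finset.mem_inter, Finset.mem_filter, Finset.mem_univ, true_and] at hx ⊢
        exact ⟨hx.1, hx.2.2⟩
      omega
    -- d1 ≤ b
    have hd1b : d1 ≤ b := by
      have hX : #{u : ZMod (2 ^ n) | od (kap hn2 u) ∧ u ∈ A ∧ 2 * u ∈ A} ≤
          #{u : ZMod (2 ^ n) | od (kap hn2 u) ∧ u ∉ A ∧ 2 * u ∉ A} := by
        apply Finset.card_le_card_of_injOn (fun u => 3 * u)
        · intro u hu
          simp only [Finset.coe_filter, Finset.mem_univ, true_and, Set.mem_ofPred_eq] at hu ⊢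
          obtain ⟨h1, h2, h3⟩ := hu
          refine ⟨?_, ?_, ?_⟩
          · rw [map_mul, k3]
            generalize kap hn2 u = r at h1
            revert r; decide
          · intro h
            refine cube3 hA u u u h2 h2 h2 (by rwa [← two_mul]) (by rwa [← two_mul])
              (by rwa [← two_mul]) ?_
            rwa [show u + u + u = 3 * u by ring]
          · have := six hn2 hA hcon he4 u h2 h3
            rwa [show 2 * (3 * u) = 6 * u by ring]
        · intro a _ c _ hac
          exact three_inj hac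
      have h1 : d1 = #{u : ZMod (2 ^ n) | od (kap hn2 u) ∧ u ∈ A ∧ 2 * u ∈ A} +
          #{u : ZMod (2 ^ n) | od (kap hn2 u) ∧ u ∉ A ∧ 2 * u ∈ A} := by
        rw [hd1, ← Finset.card_union_of_disjoint]
        · congr 1; ext x
          simp only [Finset.mem_union, Finset.mem_filter, Finset.mem_univ, true_and]
          tauto
        · rw [Finset.disjoint_filter]; rintro x _ ⟨_, h1, _⟩ ⟨_, h2, _⟩; exact h2 h1
      have h2 : b = #{u : ZMod (2 ^ n) | od (kap hn2 u) ∧ u ∉ A ∧ 2 * u ∉ A} +
          #{u : ZMod (2 ^ n) | od (kap hn2 u) ∧ u ∉ A ∧ 2 * u ∈ A} := by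
        rw [hb, ← Finset.card_union_of_disjoint]
        · congr 1; ext x
          simp only [Finset.mem_union, Finset.mem_filter, Finset.mem_univ, true_and]
          tauto
        · rw [Finset.disjoint_filter]; rintro x _ ⟨_, _, h1⟩ ⟨_, _, h2⟩; exact h1 h2
      omega
    omega
  · -- case I
    push Not at hII
    have hd1b : d1 ≤ b := by
      rw [hd1, hb]
      apply Finset.card_le_card
      intro x hx
      simp only [Finset.mem_filter, Finset.mem_univ, true_and] at hx ⊢
      exact ⟨hx.1, fun h => hII x hx.1 h hx.2⟩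
    by_cases hg : ∃ x, od (kap hn2 x) ∧ x ∈ A ∧ 3 * x ∈ A ∧ 4 * x ∈ A
    · obtain ⟨x0, hx0, h1, h3, h4⟩ := hg
      have hk : #{y : ZMod (2 ^ n) | (kap hn2 y = 0 ∧ y ∈ A) ∧ y + 4 * x0 ∈ A} ≤ b := by
        rw [hb]
        apply Finset.card_le_card_of_injOn (fun y => if x0 + y ∈ A then 3 * x0 + y else x0 + y)
        · intro y hy
          simp only [Finset.coe_filter, Finset.mem_univ, true_and, Set.mem_ofPred_eq] at hy ⊢
          obtain ⟨⟨g1, g2⟩, g3⟩ := hy
          by_cases h5 : x0 + y ∈ A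
          · rw [if_pos h5]
            refine ⟨?_, fun h => ?_⟩
            · rw [map_add, map_mul, k3, g1]
              generalize kap hn2 x0 = s at hx0
              revert s; decide
            · refine cube3 hA x0 (3 * x0) y h1 h3 g2 ?_ h5 h ?_
              · rwa [show x0 + 3 * x0 = 4 * x0 by ring]
              · rwa [show x0 + 3 * x0 + y = y + 4 * x0 by ring]
          · rw [if_neg h5]
            refine ⟨?_, h5⟩
            rw [map_add, g1, add_zero]; exact hx0
        · intro y hy z hz hyz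
          simp only [Finset.coe_filter, Finset.mem_univ, true_and, Set.mem_ofPred_eq] at hy hz hyz
          have hcl : ∀ y z : ZMod (2 ^ n), kap hn2 y = 0 → kap hn2 z = 0 →
              3 * x0 + y = x0 + z → False := by
            intro y z hy hz h
            have := congrArg (kap hn2) h
            rw [map_add, map_add, map_mul, k3, hy, hz] at this
            generalize kap hn2 x0 = s at hx0 this
            revert s; decide
          by_cases g1 : x0 + y ∈ A <;> by_cases g2 : x0 + z ∈ A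
          · rw [if_pos g1, if_pos g2] at hyz; exact add_left_cancel hyz
          · rw [if_pos g1, if_neg g2] at hyz; exact absurd (hcl y z hy.1.1 hz.1.1 hyz) id
          · rw [if_neg g1, if_pos g2] at hyz; exact absurd (hcl z y hz.1.1 hy.1.1 hyz.symm) id
          · rw [if_neg g1, if_neg g2] at hyz; exact add_left_cancel hyz
      have hsh : #{y : ZMod (2 ^ n) | kap hn2 y = 0 ∧ y + 4 * x0 ∈ A} = q := by
        rw [hq, ← shift (4 * x0) (fun x => kap hn2 x = 0 ∧ x ∈ A)]
        congr 1
        ext x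
        simp only [Finset.mem_filter, Finset.mem_univ, true_and]
        rw [map_add, map_mul, k4, zero_mul, add_zero]
      have hui := Finset.card_union_add_card_inter
        ({y : ZMod (2 ^ n) | kap hn2 y = 0 ∧ y ∈ A} : Finset _)
        ({y : ZMod (2 ^ n) | kap hn2 y = 0 ∧ y + 4 * x0 ∈ A} : Finset _)
      rw [hsh, ← hq] at hui
      have hu1 : #(({y : ZMod (2 ^ n) | kap hn2 y = 0 ∧ y ∈ A} : Finset _) ∪
          ({y : ZMod (2 ^ n) | kap hn2 y = 0 ∧ y + 4 * x0 ∈ A} : Finset _)) ≤
          #{y : ZMod (2 ^ n) | kap hn2 y = 0} := by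
        apply Finset.card_le_card
        intro x hx
        simp only [Finset.mem_union, Finset.mem_filter, Finset.mem_univ, true_and] at hx ⊢
        rcases hx with h | h <;> exact h.1
      have hi1 : #(({y : ZMod (2 ^ n) | kap hn2 y = 0 ∧ y ∈ A} : Finset _) ∩
          ({y : ZMod (2 ^ n) | kap hn2 y = 0 ∧ y + 4 * x0 ∈ A} : Finset _)) ≤
          #{y : ZMod (2 ^ n) | (kap hn2 y = 0 ∧ y ∈ A) ∧ y + 4 * x0 ∈ A} := by
        apply Finset.card_le_card
        intro x hx
        simp only [Finset.mem_inter, Finset.mem_filter, Finset.mem_univ, true_and] at hx ⊢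
        exact ⟨hx.1, hx.2.2⟩
      omega
    · push Not at hg
      have h4q : #{x : ZMod (2 ^ n) | 4 * x ∈ A} = 4 * q := by
        have h := half hn2 (fun y => 2 * y ∈ A)
        rw [hq2] at h
        have e1 : #{x : ZMod (2 ^ n) | 4 * x ∈ A} = #{x : ZMod (2 ^ n) | 2 * (2 * x) ∈ A} := by
          congr 1; ext x; simp only [Finset.mem_filter, Finset.mem_univ, true_and]
          rw [show (2 : ZMod (2 ^ n)) * (2 * x) = 4 * x by ring]
        omega
      have hsub : ({x : ZMod (2 ^ n) | 4 * x ∈ A} : Finset _) ⊆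
          ({x : ZMod (2 ^ n) | ev (kap hn2 x)} : Finset _) ∪
          (({x : ZMod (2 ^ n) | od (kap hn2 x) ∧ x ∉ A} : Finset _) ∪
          ({x : ZMod (2 ^ n) | od (kap hn2 x) ∧ 3 * x ∉ A} : Finset _)) := by
        intro x hx
        simp only [Finset.mem_union, Finset.mem_filter, Finset.mem_univ, true_and] at hx ⊢
        have h1 := ev_or_od (kap hn2 x)
        have h2 := hg x
        tauto
      have h3b : #{x : ZMod (2 ^ n) | od (kap hn2 x) ∧ 3 * x ∉ A} ≤ b := by
        rw [hb]
        apply Finset.card_le_card_of_injOn (fun u => 3 * u)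
        · intro u hu
          simp only [Finset.coe_filter, Finset.mem_univ, true_and, Set.mem_ofPred_eq] at hu ⊢
          refine ⟨?_, hu.2⟩
          rw [map_mul, k3]
          have h1 := hu.1
          generalize kap hn2 u = r at h1
          revert r; decide
        · intro a _ c _ hac
          exact three_inj hac
      have hc := Finset.card_le_card hsub
      have hc2 := Finset.card_union_le ({x : ZMod (2 ^ n) | ev (kap hn2 x)} : Finset _)
          (({x : ZMod (2 ^ n) | od (kap hn2 x) ∧ x ∉ A} : Finset _) ∪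
          ({x : ZMod (2 ^ n) | od (kap hn2 x) ∧ 3 * x ∉ A} : Finset _))
      have hc3 := Finset.card_union_le
          ({x : ZMod (2 ^ n) | od (kap hn2 x) ∧ x ∉ A} : Finset _)
          ({x : ZMod (2 ^ n) | od (kap hn2 x) ∧ 3 * x ∉ A} : Finset _)
      omega

end cnt

/-! ### The lower bound -/

section lower

variable {n : ℕ}

/-- reduction modulo 8 -/
noncomputable def kap8 (hn : 3 ≤ n) : ZMod (2 ^ n) →+* ZMod 8 :=
  ZMod.castHom (show (8 : ℕ) ∣ 2 ^ n from (by norm_num : (8 : ℕ) = 2 ^ 3) ▸ pow_dvd_pow 2 hn)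
    (ZMod 8)

theorem kap8_surj (hn : 3 ≤ n) (r : ZMod 8) : r ∈ Set.range (kap8 hn) :=
  ⟨((r.val : ℕ) : ZMod (2 ^ n)), by
    rw [show kap8 hn ((r.val : ℕ) : ZMod (2 ^ n)) = ((r.val : ℕ) : ZMod 8) from map_natCast _ _,
      ZMod.natCast_zmod_val]⟩

theorem fiber8 [NeZero (2 ^ n)] (hn : 3 ≤ n) (r : ZMod 8) :
    8 * #{x : ZMod (2 ^ n) | kap8 hn x = r} = 2 ^ n := by
  have h0 : ∀ s : ZMod 8, #{x : ZMod (2 ^ n) | kap8 hn x = s} =
      #{x : ZMod (2 ^ n) | kap8 hn x = r} :=
    fun s => AddMonoidHom.card_fiber_eq_of_mem_range (kap8 hn) (kap8_surj hn s) (kap8_surj hn r)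
  have h1 := Finset.card_eq_sum_card_fiberwise (s := (Finset.univ : Finset (ZMod (2 ^ n))))
    (t := (Finset.univ : Finset (ZMod 8))) (f := kap8 hn) (fun _ _ => by simp)
  rw [Finset.sum_congr rfl (fun s _ => h0 s), Finset.sum_const, Finset.card_univ, Finset.card_univ,
    ZMod.card, ZMod.card, smul_eq_mul] at h1
  exact h1.symm

/-- the odd residues together with `4` modulo `8` -/
def T8 : Finset (ZMod 8) := {1, 3, 4, 5, 7}

theorem t8_free : ∀ a b c : ZMod 8, a ∈ T8 → b ∈ T8 → c ∈ T8 → a + b ∈ T8 → a + c ∈ T8 →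
    b + c ∈ T8 → a + b + c ∉ T8 := by decide

theorem lower (hn : 3 ≤ n) : ∃ A : Finset (ZMod (2 ^ n)), CubeFree 3 A ∧
    A.card = 5 * 2 ^ (n - 3) := by
  classical
  have : NeZero (2 ^ n) := ⟨by positivity⟩
  refine ⟨Finset.univ.filter (fun x : ZMod (2 ^ n) => kap8 hn x ∈ T8), ?_, ?_⟩
  · intro S
    by_contra hcon
    push Not at hcon
    have hm : ∀ I : Finset (Fin 3), I.Nonempty → kap8 hn (∑ i ∈ I, S i) ∈ T8 := by
      intro I hI
      have := hcon I hI
      simpa only [Finset.mem_filter, Finset.mem_univ, true_and] using this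
    have h0 := hm {0} (by simp)
    have h1 := hm {1} (by simp)
    have h2 := hm {2} (by simp)
    have h01 := hm {0, 1} (by simp)
    have h02 := hm {0, 2} (by simp)
    have h12 := hm {1, 2} (by simp)
    have h012 := hm Finset.univ (by simp)
    rw [Finset.sum_singleton] at h0 h1 h2
    rw [Finset.sum_pair (by decide), map_add] at h01 h02 h12
    rw [Fin.sum_univ_three, map_add, map_add] at h012
    exact t8_free _ _ _ h0 h1 h2 h01 h02 h12 h012
  · have h1 := Finset.card_eq_sum_card_fiberwise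
      (s := ({x : ZMod (2 ^ n) | kap8 hn x ∈ T8} : Finset (ZMod (2 ^ n))))
      (t := T8) (f := kap8 hn) (fun x hx => by simpa using hx)
    have hp : 2 ^ n = 8 * 2 ^ (n - 3) := by
      rw [show (8 : ℕ) = 2 ^ 3 by norm_num, ← pow_add]; congr 1; omega
    rw [h1, Finset.sum_congr rfl (g := fun _ => 2 ^ (n - 3)), Finset.sum_const, smul_eq_mul]
    · rfl
    · intro r hr
      have h8 := fiber8 hn r
      have e : (Finset.univ.filter (fun x : ZMod (2 ^ n) => kap8 hn x ∈ T8)).filter
          (fun a => kap8 hn a = r) = Finset.univ.filter (fun x : ZMod (2 ^ n) => kap8 hn x = r) := by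
        ext x
        simp only [Finset.mem_filter, Finset.mem_univ, true_and]
        constructor
        · exact fun h => h.2
        · intro h; exact ⟨by rw [h]; exact hr, h⟩
      rw [e]
      omega

end lower

/-- **MP_18fe88_co, Q1 (true).**  For every `n ≥ 3` the largest `3`-cube-free subset of
`ℤ/2ⁿ` has exactly `(5/8)·2ⁿ = 5·2ⁿ⁻³` elements. -/
theorem result : ∀ n : ℕ, 3 ≤ n →
    IsGreatest {m : ℕ | ∃ A : Finset (ZMod (2 ^ n)), CubeFree 3 A ∧ A.card = m}
      (5 * 2 ^ (n - 3)) := by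
  intro n hn
  have : NeZero (2 ^ n) := ⟨by positivity⟩
  refine ⟨lower hn, ?_⟩
  rintro m ⟨A, hA, rfl⟩
  have h := upper hn hA
  have hp : 2 ^ n = 8 * 2 ^ (n - 3) := by
    rw [show (8 : ℕ) = 2 ^ 3 by norm_num, ← pow_add]; congr 1; omega
  omega

end Pool.Agent.Results.MP_18fe88_co.FiveEighths
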